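import Mathlib

set_option autoImplicit false

namespace Pool.Agent.Lib.MP_29e9a5_co

/-- The star with `k` edges of lengths `ℓ i`: the point at distance `r` from the centre on the
`i`-th edge is the vector with `i`-th coordinate `r` and all other coordinates `0`; the centre is
the zero vector. -/
def Star {k : ℕ} (ℓ : Fin k → ℝ) : Set (Fin k → ℝ) :=
  {x | (∀ i, 0 ≤ x i ∧ x i ≤ ℓ i) ∧ ∀ i j, i ≠ j → x i = 0 ∨ x j = 0}

/-- The shortest path metric of the star. -/
def starDist {k : ℕ} (x y : Fin k → ℝ) : ℝ := ∑ i, |x i - y i|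

/-- `f` is a `v`-Lipschitz map from `[0,T]` to the star with edge lengths `ℓ`. -/
structure IsStrategy {k : ℕ} (ℓ : Fin k → ℝ) (v T : ℝ) (f : ℝ → Fin k → ℝ) : Prop where
  mem : ∀ t ∈ Set.Icc 0 T, f t ∈ Star ℓ
  lip : ∀ t ∈ Set.Icc 0 T, ∀ t' ∈ Set.Icc 0 T, starDist (f t) (f t') ≤ v * |t - t'|

/-- There are a time `T > 0` and a winning cop strategy of speed `s` on the star: an `s`-Lipschitz
map which meets every `1`-Lipschitz map. -/
structure CopWins {k : ℕ} (ℓ : Fin k → ℝ) (s : ℝ) : Prop where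
  exists_winning : ∃ T > 0, ∃ f : ℝ → Fin k → ℝ, IsStrategy ℓ s T f ∧
    ∀ g : ℝ → Fin k → ℝ, IsStrategy ℓ 1 T g → ∃ t ∈ Set.Icc 0 T, f t = g t

end Pool.Agent.Lib.MP_29e9a5_co
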