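import Mathlib
import Pool.Agent.Lib.MP_29e9a5_co.Defs

set_option autoImplicit false

namespace Pool.Agent.Lib.MP_29e9a5_co

open Set Filter Topology

variable {k : ℕ} {ℓ : Fin k → ℝ}

lemma coord_le_starDist (x y : Fin k → ℝ) (i : Fin k) : |x i - y i| ≤ starDist x y :=
  Finset.single_le_sum (f := fun i => |x i - y i|) (fun _ _ => abs_nonneg _) (Finset.mem_univ i)

lemma starDist_triangle (x y z : Fin k → ℝ) : starDist x z ≤ starDist x y + starDist y z := by
  unfold starDist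
  rw [← Finset.sum_add_distrib]
  exact Finset.sum_le_sum (fun i _ => abs_sub_le _ _ _)

lemma starDist_comm (x y : Fin k → ℝ) : starDist x y = starDist y x := by
  unfold starDist
  exact Finset.sum_congr rfl (fun i _ => abs_sub_comm _ _)

lemma starDist_single (i : Fin k) (a b : ℝ) :
    starDist (Pi.single i a) (Pi.single i b) = |a - b| := by
  unfold starDist
  rw [Finset.sum_eq_single i]
  · simp
  · intro j _ hj
    simp [Pi.single_eq_of_ne hj]
  · simp

lemma starDist_zero_single (i : Fin k) (a : ℝ) : starDist 0 (Pi.single i a) = |a| := by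
  have := starDist_single i 0 a
  simpa using this

lemma IsStrategy.continuousOn {v T : ℝ} (hv : 0 ≤ v) {f : ℝ → Fin k → ℝ}
    (hf : IsStrategy ℓ v T f) (i : Fin k) : ContinuousOn (fun t => f t i) (Icc 0 T) := by
  refine LipschitzOnWith.continuousOn (K := v.toNNReal) (LipschitzOnWith.of_dist_le_mul ?_)
  intro t ht t' ht'
  rw [Real.dist_eq, Real.dist_eq, Real.coe_toNNReal v hv]
  exact (coord_le_starDist _ _ i).trans (hf.lip t ht t' ht')

/-- a point of the star with positive `i`-th coordinate lies on the `i`-th edge -/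
lemma eq_single {x : Fin k → ℝ} (hx : x ∈ Star ℓ) {i : Fin k} (hi : 0 < x i) :
    x = Pi.single i (x i) := by
  ext j
  by_cases h : j = i
  · subst h; simp
  · rw [Pi.single_eq_of_ne h]
    rcases hx.2 j i h with h1 | h1
    · exact h1
    · exact absurd h1 hi.ne'

lemma single_mem {i : Fin k} {a : ℝ} (hℓ : ∀ i, 0 < ℓ i) (h0 : 0 ≤ a) (h1 : a ≤ ℓ i) :
    Pi.single i a ∈ Star ℓ := by
  refine ⟨fun j => ?_, fun j j' hjj' => ?_⟩
  · by_cases h : j = i
    · subst h; simp [h0, h1]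
    · rw [Pi.single_eq_of_ne h]
      exact ⟨le_rfl, (hℓ j).le⟩
  · by_cases h : j = i
    · right
      apply Pi.single_eq_of_ne
      rintro rfl
      exact hjj' h
    · left
      exact Pi.single_eq_of_ne h _

lemma zero_mem (hℓ : ∀ i, 0 < ℓ i) : (0 : Fin k → ℝ) ∈ Star ℓ :=
  ⟨fun j => ⟨le_rfl, (hℓ j).le⟩, fun _ _ _ => Or.inl rfl⟩

lemma ivt {x y : ℝ → ℝ} {a b : ℝ} (hab : a ≤ b) (hx : ContinuousOn x (Icc a b))
    (hy : ContinuousOn y (Icc a b)) (h1 : y a < x a) (h2 : x b ≤ y b) :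
    ∃ t ∈ Icc a b, x t = y t := by
  have h := intermediate_value_Icc hab (hy.sub hx)
  have h0 : (0 : ℝ) ∈ Icc (y a - x a) (y b - x b) := ⟨by linarith, by linarith⟩
  obtain ⟨t, ht, hte⟩ := h h0
  refine ⟨t, ht, ?_⟩
  simp only [Pi.sub_apply] at hte
  linarith

/-- choice of the growth factor -/
lemma exists_factor (p : ℕ) (s : ℝ) (hs : 2 * (p : ℝ) - 1 < s) :
    ∃ q : ℝ, 1 < q ∧ 2 * q ^ p - 1 - q ≤ s * (q - 1) := by
  have hcont : Continuous (fun q : ℝ => 2 * (∑ j ∈ Finset.range p, q ^ j) - 1) := by fun_prop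
  have h1 : (fun q : ℝ => 2 * (∑ j ∈ Finset.range p, q ^ j) - 1) 1 < s := by
    simpa using hs
  have h2 : ∀ᶠ q in 𝓝 (1 : ℝ), 2 * (∑ j ∈ Finset.range p, q ^ j) - 1 < s :=
    hcont.continuousAt.eventually (gt_mem_nhds h1)
  have h3 : ∀ᶠ q in 𝓝[>] (1 : ℝ), 2 * (∑ j ∈ Finset.range p, q ^ j) - 1 < s :=
    h2.filter_mono nhdsWithin_le_nhds
  obtain ⟨q, hq, hq1⟩ := (h3.and self_mem_nhdsWithin).exists
  have hq1' : 1 < q := hq1
  refine ⟨q, hq1', ?_⟩
  have h4 : (∑ j ∈ Finset.range p, q ^ j) * (q - 1) = q ^ p - 1 := geom_sum_mul q p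
  have h5 : (2 * (∑ j ∈ Finset.range p, q ^ j) - 1) * (q - 1) ≤ s * (q - 1) :=
    mul_le_mul_of_nonneg_right hq.le (by linarith)
  nlinarith

section path

variable (ℓ) (q s : ℝ) (ed : ℤ → Fin k)

/-- index of the excursion at time `t > 0` -/
noncomputable def idx (t : ℝ) : ℤ := ⌊Real.logb q t⌋

/-- the profile of the `n`-th excursion -/
noncomputable def prof (n : ℤ) (t : ℝ) : ℝ :=
  min (s * min (t - q ^ n) (q ^ (n + 1) - t)) (ℓ (ed n))

/-- the zig-zag path -/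
noncomputable def zig (t : ℝ) : Fin k → ℝ :=
  if t ≤ 0 then 0 else Pi.single (ed (idx q t)) (prof ℓ q s ed (idx q t) t)

end path

variable {q s : ℝ} {ed : ℤ → Fin k}

lemma idx_spec (hq : 1 < q) {t : ℝ} (ht : 0 < t) : q ^ idx q t ≤ t ∧ t < q ^ (idx q t + 1) := by
  constructor
  · have h1 : (idx q t : ℝ) ≤ Real.logb q t := Int.floor_le _
    rw [← Real.rpow_intCast]
    exact (Real.le_logb_iff_rpow_le hq ht).1 h1
  · have h1 : Real.logb q t < (idx q t : ℝ) + 1 := Int.lt_floor_add_one _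
    rw [← Real.rpow_intCast]
    push_cast
    exact (Real.logb_lt_iff_lt_rpow hq ht).1 h1

lemma idx_eq (hq : 1 < q) {t : ℝ} {n : ℤ} (h1 : q ^ n ≤ t) (h2 : t < q ^ (n + 1)) :
    idx q t = n := by
  have hq0 : 0 < q := by linarith
  have ht : 0 < t := lt_of_lt_of_le (zpow_pos hq0 n) h1
  obtain ⟨h3, h4⟩ := idx_spec hq ht
  have h5 : n < idx q t + 1 := (zpow_lt_zpow_iff_right₀ hq).1 (h1.trans_lt h4)
  have h6 : idx q t < n + 1 := (zpow_lt_zpow_iff_right₀ hq).1 (h3.trans_lt h2)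
  omega

lemma zig_eq (hq : 1 < q) {t : ℝ} {n : ℤ} (h1 : q ^ n ≤ t) (h2 : t < q ^ (n + 1)) :
    zig ℓ q s ed t = Pi.single (ed n) (prof ℓ q s ed n t) := by
  have hq0 : 0 < q := by linarith
  have ht : 0 < t := lt_of_lt_of_le (zpow_pos hq0 n) h1
  unfold zig
  rw [if_neg (not_le.2 ht), idx_eq hq h1 h2]

lemma prof_nonneg (hs : 0 ≤ s) (hℓ : ∀ i, 0 < ℓ i) {t : ℝ} {n : ℤ} (h1 : q ^ n ≤ t)
    (h2 : t ≤ q ^ (n + 1)) : 0 ≤ prof ℓ q s ed n t := by
  unfold prof
  refine le_min (mul_nonneg hs (le_min (by linarith) (by linarith))) (hℓ _).le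

lemma prof_le (n : ℤ) (t : ℝ) : prof ℓ q s ed n t ≤ ℓ (ed n) := min_le_right _ _

lemma prof_le_left (hs : 0 ≤ s) (n : ℤ) (t : ℝ) : prof ℓ q s ed n t ≤ s * (t - q ^ n) :=
  (min_le_left _ _).trans (mul_le_mul_of_nonneg_left (min_le_left _ _) hs)

lemma prof_le_right (hs : 0 ≤ s) (n : ℤ) (t : ℝ) : prof ℓ q s ed n t ≤ s * (q ^ (n + 1) - t) :=
  (min_le_left _ _).trans (mul_le_mul_of_nonneg_left (min_le_right _ _) hs)

lemma prof_lip (hs : 0 ≤ s) (n : ℤ) (t t' : ℝ) :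
    |prof ℓ q s ed n t - prof ℓ q s ed n t'| ≤ s * |t - t'| := by
  unfold prof
  have h1 := abs_min_sub_min_le_max (s * min (t - q ^ n) (q ^ (n + 1) - t)) (ℓ (ed n))
    (s * min (t' - q ^ n) (q ^ (n + 1) - t')) (ℓ (ed n))
  rw [sub_self, abs_zero, max_eq_left (abs_nonneg _)] at h1
  refine h1.trans ?_
  rw [← mul_sub, abs_mul, abs_of_nonneg hs]
  refine mul_le_mul_of_nonneg_left ?_ hs
  have h2 := abs_min_sub_min_le_max (t - q ^ n) (q ^ (n + 1) - t) (t' - q ^ n) (q ^ (n + 1) - t')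
  refine h2.trans (max_le ?_ ?_)
  · rw [show t - q ^ n - (t' - q ^ n) = t - t' by ring]
  · rw [show q ^ (n + 1) - t - (q ^ (n + 1) - t') = -(t - t') by ring, abs_neg]

lemma zig_zero : zig ℓ q s ed 0 = 0 := by
  unfold zig
  simp

lemma zig_lip_aux (hq : 1 < q) (hs : 0 ≤ s) (hℓ : ∀ i, 0 < ℓ i) {t t' : ℝ} (ht : 0 ≤ t)
    (htt' : t ≤ t') : starDist (zig ℓ q s ed t) (zig ℓ q s ed t') ≤ s * |t - t'| := by
  have hq0 : 0 < q := by linarith
  rw [abs_sub_comm, abs_of_nonneg (sub_nonneg.2 htt')]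
  rcases ht.eq_or_lt with rfl | ht0
  · rcases htt'.eq_or_lt with h | ht'0
    · rw [← h, zig_zero]; simp [starDist]
    · obtain ⟨h1, h2⟩ := idx_spec hq ht'0
      rw [zig_zero, zig_eq hq h1 h2, starDist_zero_single,
        abs_of_nonneg (prof_nonneg hs hℓ h1 h2.le)]
      refine (prof_le_left hs _ _).trans (mul_le_mul_of_nonneg_left ?_ hs)
      have := zpow_pos hq0 (idx q t')
      linarith
  · have ht'0 : 0 < t' := ht0.trans_le htt'
    obtain ⟨h1, h2⟩ := idx_spec hq ht0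
    obtain ⟨h3, h4⟩ := idx_spec hq ht'0
    rw [zig_eq hq h1 h2, zig_eq hq h3 h4]
    by_cases hn : idx q t = idx q t'
    · rw [hn, starDist_single]
      refine (prof_lip hs _ _ _).trans ?_
      rw [abs_sub_comm, abs_of_nonneg (sub_nonneg.2 htt')]
    · have h5 : idx q t < idx q t' + 1 := by
        refine (zpow_lt_zpow_iff_right₀ hq).1 (h1.trans_lt (htt'.trans_lt h4))
      have h6 : idx q t + 1 ≤ idx q t' := by omega
      have h7 : q ^ (idx q t + 1) ≤ q ^ idx q t' := zpow_le_zpow_right₀ hq.le h6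
      refine (starDist_triangle _ 0 _).trans ?_
      rw [starDist_comm, starDist_zero_single, starDist_zero_single,
        abs_of_nonneg (prof_nonneg hs hℓ h1 h2.le), abs_of_nonneg (prof_nonneg hs hℓ h3 h4.le)]
      have h8 := prof_le_right (ℓ := ℓ) (ed := ed) (q := q) hs (idx q t) t
      have h9 := prof_le_left (ℓ := ℓ) (ed := ed) (q := q) hs (idx q t') t'
      nlinarith [mul_le_mul_of_nonneg_left h7 hs]

lemma zig_isStrategy (hq : 1 < q) (hs : 0 ≤ s) (hℓ : ∀ i, 0 < ℓ i) (T : ℝ) :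
    IsStrategy ℓ s T (zig ℓ q s ed) := by
  refine ⟨fun t ht => ?_, fun t ht t' ht' => ?_⟩
  · rcases ht.1.eq_or_lt with rfl | ht0
    · rw [zig_zero]; exact zero_mem hℓ
    · obtain ⟨h1, h2⟩ := idx_spec hq ht0
      rw [zig_eq hq h1 h2]
      exact single_mem hℓ (prof_nonneg hs hℓ h1 h2.le) (prof_le _ _)
  · rcases le_total t t' with h | h
    · exact zig_lip_aux hq hs hℓ ht.1 h
    · rw [starDist_comm, abs_sub_comm]
      exact zig_lip_aux hq hs hℓ ht'.1 h

end Pool.Agent.Lib.MP_29e9a5_co
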