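import Mathlib
import Pool.Agent.Lib.MP_29e9a5_co.Proof

set_option autoImplicit false

namespace Pool.Agent.Lib.MP_29e9a5_co

open Set Filter Topology

variable {k : ℕ} {ℓ : Fin k → ℝ} {q s : ℝ} {ed : ℤ → Fin k}

lemma prof_continuous (n : ℤ) : Continuous (prof ℓ q s ed n) := by
  unfold prof
  fun_prop

/-- If the robber stays in the interior of the edge `ed m` during the first half of the `m`-th
excursion and is not met, then at the middle of the excursion she is beyond the cop. -/
lemma beyond (hq : 1 < q) {T : ℝ} {g : ℝ → Fin k → ℝ}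
    (hg : IsStrategy ℓ 1 T g) (hne : ∀ t ∈ Icc 0 T, zig ℓ q s ed t ≠ g t) (m : ℤ)
    (hm : q ^ (m + 1) ≤ T)
    (hpos : ∀ t ∈ Icc (q ^ m) ((q ^ m + q ^ (m + 1)) / 2), 0 < g t (ed m)) :
    min (s * ((q - 1) * q ^ m / 2)) (ℓ (ed m)) < g ((q ^ m + q ^ (m + 1)) / 2) (ed m) := by
  have hq0 : 0 < q := by linarith
  have hqm : 0 < q ^ m := zpow_pos hq0 m
  have hlt : q ^ m < q ^ (m + 1) := zpow_lt_zpow_right₀ hq (by omega)
  set μ : ℝ := (q ^ m + q ^ (m + 1)) / 2 with hμ
  have hμ1 : q ^ m ≤ μ := by rw [hμ]; linarith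
  have hμ2 : μ < q ^ (m + 1) := by rw [hμ]; linarith
  have hval : prof ℓ q s ed m μ = min (s * ((q - 1) * q ^ m / 2)) (ℓ (ed m)) := by
    unfold prof
    have h1 : μ - q ^ m = (q - 1) * q ^ m / 2 := by
      rw [hμ, zpow_add_one₀ hq0.ne']; ring
    have h2 : q ^ (m + 1) - μ = (q - 1) * q ^ m / 2 := by
      rw [hμ, zpow_add_one₀ hq0.ne']; ring
    rw [h1, h2, min_self]
  rw [← hval]
  by_contra hcon
  rw [not_lt] at hcon
  have hsub : Icc (q ^ m) μ ⊆ Icc 0 T := fun t ht =>
    ⟨hqm.le.trans ht.1, (ht.2.trans hμ2.le).trans hm⟩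
  obtain ⟨t, ht, hte⟩ := ivt (x := fun t => g t (ed m)) (y := prof ℓ q s ed m) hμ1
    ((hg.continuousOn zero_le_one (ed m)).mono hsub) (prof_continuous m).continuousOn
    (by
      have h0 : prof ℓ q s ed m (q ^ m) ≤ 0 := by
        unfold prof
        refine (min_le_left _ _).trans ?_
        rw [sub_self, min_eq_left (by linarith), mul_zero]
      exact h0.trans_lt (hpos _ ⟨le_rfl, hμ1⟩)) hcon
  apply hne t (hsub ht)
  rw [zig_eq hq ht.1 (ht.2.trans_lt hμ2), eq_single (hg.mem t (hsub ht)) (hpos t ht), ← hte]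

/-- The expansion lemma. -/
lemma expansion (hℓ : ∀ i, 0 < ℓ i) (p : ℕ) (hp : 1 ≤ p) (hs : 2 * (p : ℝ) - 1 < s)
    (A : Set (Fin k)) (ed : ℤ → Fin k)
    (hed : ∀ n : ℤ, ∀ i ∈ A, ∃ m : ℤ, n - p < m ∧ m ≤ n ∧ ed m = i) :
    ∃ T > 0, ∃ f : ℝ → Fin k → ℝ, IsStrategy ℓ s T f ∧ f 0 = 0 ∧
      ∀ g : ℝ → Fin k → ℝ, IsStrategy ℓ 1 T g → (∀ t ∈ Icc 0 T, f t ≠ g t) →
        ∀ i ∈ A, g 0 i = 0 := by
  obtain ⟨q, hq, hqs⟩ := exists_factor p s hs
  have hq0 : 0 < q := by linarith
  have hp' : (1 : ℝ) ≤ p := by exact_mod_cast hp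
  have hs0 : 0 < s := by linarith
  -- choice of the horizon
  obtain ⟨N, hN⟩ : ∃ N : ℕ, ∀ i, ℓ i ≤ s * ((q - 1) * q ^ N / 2) := by
    obtain ⟨M, hM⟩ : ∃ M : ℝ, ∀ i, ℓ i ≤ M := by
      obtain ⟨M, hM⟩ := (Set.finite_range ℓ).bddAbove
      exact ⟨M, fun i => hM ⟨i, rfl⟩⟩
    obtain ⟨N, hN⟩ := pow_unbounded_of_one_lt (M / (s * (q - 1) / 2)) hq
    have hc : 0 < s * (q - 1) / 2 := by
      have := mul_pos hs0 (sub_pos.2 hq); linarith
    rw [div_lt_iff₀ hc] at hN
    exact ⟨N, fun i => (hM i).trans (by nlinarith)⟩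
  set N0 : ℤ := N + p with hN0
  refine ⟨q ^ (N0 + 1), zpow_pos hq0 _, zig ℓ q s ed, zig_isStrategy hq hs0.le hℓ _, zig_zero, ?_⟩
  intro g hg hne i hi
  set T : ℝ := q ^ (N0 + 1) with hT
  have hT0 : 0 < T := zpow_pos hq0 _
  have h0T : (0 : ℝ) ∈ Icc 0 T := ⟨le_rfl, hT0.le⟩
  by_contra hx0
  have hx0' : 0 < g 0 i := lt_of_le_of_ne ((hg.mem 0 h0T).1 i).1 (Ne.symm hx0)
  have hcont := hg.continuousOn zero_le_one i
  by_cases hzero : ∃ t ∈ Icc 0 T, g t i = 0
  · -- first zero
    have hclosed : IsClosed {t | t ∈ Icc 0 T ∧ g t i = 0} := by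
      have := hcont.preimage_isClosed_of_isClosed isClosed_Icc (isClosed_singleton (x := (0 : ℝ)))
      exact this
    have hne' : {t | t ∈ Icc 0 T ∧ g t i = 0}.Nonempty := hzero
    have hbdd : BddBelow {t | t ∈ Icc 0 T ∧ g t i = 0} := ⟨0, fun t ht => ht.1.1⟩
    set u : ℝ := sInf {t | t ∈ Icc 0 T ∧ g t i = 0} with hu
    obtain ⟨huT, hu0⟩ : u ∈ Icc 0 T ∧ g u i = 0 := hclosed.csInf_mem hne' hbdd
    have hbefore : ∀ t, 0 ≤ t → t < u → 0 < g t i := by
      intro t ht htu
      have htT : t ∈ Icc 0 T := ⟨ht, htu.le.trans huT.2⟩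
      refine lt_of_le_of_ne ((hg.mem t htT).1 i).1 (fun h => ?_)
      exact absurd (csInf_le hbdd ⟨htT, h.symm⟩) (not_le.2 htu)
    have hupos : 0 < u := by
      refine lt_of_le_of_ne huT.1 (fun h => ?_)
      rw [← h] at hu0
      exact hx0 hu0
    -- at time `u` the robber is at the centre
    have hgu : g u = 0 := by
      ext j
      by_cases hj : j = i
      · rw [hj, hu0]; rfl
      · by_contra hju
        have hju' : 0 < g u j := lt_of_le_of_ne ((hg.mem u huT).1 j).1 (Ne.symm hju)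
        -- just before `u` the `j`-th coordinate is positive too
        set δ : ℝ := min (g u j / 2) (u / 2) with hδ
        have hδ0 : 0 < δ := lt_min (by linarith) (by linarith)
        have hδ1 : δ ≤ g u j / 2 := min_le_left _ _
        have hδ2 : δ ≤ u / 2 := min_le_right _ _
        have ht : u - δ ∈ Icc 0 T := ⟨by linarith, by linarith [huT.2]⟩
        have h1 := (coord_le_starDist _ _ j).trans (hg.lip u huT (u - δ) ht)
        rw [show u - (u - δ) = δ by ring, abs_of_pos hδ0, one_mul] at h1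
        have h2 : 0 < g (u - δ) j := by
          have := (abs_le.1 h1).2
          linarith
        have h3 := hbefore (u - δ) ht.1 (by linarith)
        rcases (hg.mem _ ht).2 j i hj with h4 | h4 <;> linarith
    obtain ⟨hn1, hn2⟩ := idx_spec hq hupos
    set n : ℤ := idx q u with hn
    obtain ⟨m, hm1, hm2, hm3⟩ := hed n i hi
    rcases hm2.eq_or_lt with hmn | hmn
    · -- the cop is on the edge of the robber
      have hedn : ed n = i := by rw [← hmn]; exact hm3
      have hqn : 0 < q ^ n := zpow_pos hq0 n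
      rcases hn1.eq_or_lt with hq1 | hq1
      · -- both at the centre
        apply hne u huT
        rw [hgu, zig_eq hq hn1 hn2]
        have h0 : prof ℓ q s ed n u = 0 := by
          unfold prof
          have hmin : min (0 : ℝ) (q ^ (n + 1) - u) = 0 := min_eq_left (by linarith)
          rw [hq1, sub_self, hmin, mul_zero, min_eq_left (hℓ _).le]
        rw [h0, Pi.single_zero]
      · have hsub : Icc (q ^ n) u ⊆ Icc 0 T := fun t ht => ⟨hqn.le.trans ht.1, ht.2.trans huT.2⟩
        obtain ⟨t, ht, hte⟩ := ivt (x := fun t => g t i) (y := prof ℓ q s ed n) hn1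
          (hcont.mono hsub) (prof_continuous n).continuousOn
          (by
            have h0 : prof ℓ q s ed n (q ^ n) ≤ 0 := by
              unfold prof
              refine (min_le_left _ _).trans ?_
              have : q ^ n ≤ q ^ (n + 1) := zpow_le_zpow_right₀ hq.le (by omega)
              rw [sub_self, min_eq_left (by linarith), mul_zero]
            exact h0.trans_lt (hbefore _ hqn.le hq1))
          (by
            simp only [hu0]
            exact prof_nonneg hs0.le hℓ hn1 hn2.le)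
        rcases ht.2.eq_or_lt with htu | htu
        · apply hne u huT
          rw [hgu, zig_eq hq hn1 hn2]
          have h0 : prof ℓ q s ed n u = 0 := by
            rw [htu] at hte
            simp only [hu0] at hte
            exact hte.symm
          rw [h0, Pi.single_zero]
        · apply hne t (hsub ht)
          rw [zig_eq hq ht.1 (ht.2.trans_lt hn2), hedn,
            eq_single (hg.mem t (hsub ht)) (hbefore t (hsub ht).1 htu), ← hte]
    · -- the cop visited the edge a short time ago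
      have hmn' : m + 1 ≤ n := by omega
      have hle : q ^ (m + 1) ≤ q ^ n := zpow_le_zpow_right₀ hq.le hmn'
      have hlt : q ^ m < q ^ (m + 1) := zpow_lt_zpow_right₀ hq (by omega)
      have hqm : 0 < q ^ m := zpow_pos hq0 m
      have hμu : (q ^ m + q ^ (m + 1)) / 2 < u := by linarith
      have hK := beyond hq hg hne m (by linarith [huT.2]) (fun t ht => by
        rw [hm3]
        exact hbefore t (hqm.le.trans ht.1) (ht.2.trans_lt hμu))
      rw [hm3] at hK
      set μ : ℝ := (q ^ m + q ^ (m + 1)) / 2 with hμ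
      have hμT : μ ∈ Icc 0 T := ⟨by rw [hμ]; linarith, hμu.le.trans huT.2⟩
      have h1 := (coord_le_starDist _ _ i).trans (hg.lip μ hμT u huT)
      rw [hu0, sub_zero, one_mul, abs_sub_comm, abs_of_pos (sub_pos.2 hμu)] at h1
      have h2 := (le_abs_self _).trans h1
      rcases min_lt_iff.1 hK with h3 | h3
      · -- contradiction with the choice of `q`
        have h4 : q ^ (n + 1) ≤ q ^ (m + p) := zpow_le_zpow_right₀ hq.le (by omega)
        have h5 : q ^ (m + p) = q ^ m * q ^ p := by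
          rw [zpow_add₀ hq0.ne', zpow_natCast]
        have h6 : q ^ (m + 1) = q ^ m * q := zpow_add_one₀ hq0.ne' m
        have h7 : s * ((q - 1) * q ^ m / 2) < q ^ m * q ^ p - (q ^ m + q ^ m * q) / 2 := by
          rw [← h5, ← h6, ← hμ]; linarith
        have h8 : q ^ m * (2 * q ^ p - 1 - q) ≤ q ^ m * (s * (q - 1)) :=
          mul_le_mul_of_nonneg_left hqs hqm.le
        nlinarith
      · exact absurd ((hg.mem μ hμT).1 i).2 (not_le.2 h3)
  · -- the robber never leaves the interior of the edge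
    have hposAll : ∀ t ∈ Icc 0 T, 0 < g t i := by
      intro t ht
      refine lt_of_le_of_ne ((hg.mem t ht).1 i).1 (fun h => hzero ⟨t, ht, h.symm⟩)
    obtain ⟨m, hm1, hm2, hm3⟩ := hed N0 i hi
    have hqm : 0 < q ^ m := zpow_pos hq0 m
    have hlt : q ^ m < q ^ (m + 1) := zpow_lt_zpow_right₀ hq (by omega)
    have hmT : q ^ (m + 1) ≤ T := zpow_le_zpow_right₀ hq.le (by omega)
    have hK := beyond hq hg hne m hmT (fun t ht => by
      rw [hm3]
      exact hposAll t ⟨hqm.le.trans ht.1, by linarith [ht.2]⟩)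
    rw [hm3] at hK
    have hbig : ℓ i ≤ s * ((q - 1) * q ^ m / 2) := by
      refine (hN i).trans ?_
      have h1 : (q : ℝ) ^ N ≤ q ^ m := by
        rw [← zpow_natCast]
        exact zpow_le_zpow_right₀ hq.le (by omega)
      have h2 : 0 ≤ s * (q - 1) := mul_nonneg hs0.le (by linarith)
      nlinarith [mul_le_mul_of_nonneg_left h1 h2]
    rw [min_eq_right hbig] at hK
    refine absurd ((hg.mem _ ⟨?_, ?_⟩).1 i).2 (not_le.2 hK)
    · linarith
    · linarith

end Pool.Agent.Lib.MP_29e9a5_co
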