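import Mathlib
import Pool.Agent.Lib.MP_29e9a5_co.Expansion

set_option autoImplicit false

namespace Pool.Agent.Lib.MP_29e9a5_co

open Set Filter Topology

variable {k : ℕ} {ℓ : Fin k → ℝ}

/-- Contraction on one family of edges, followed by expansion on the other one. -/
lemma combine (p : ℕ) (hp : 1 ≤ p) {s : ℝ} (hs : 2 * (p : ℝ) - 1 < s) (hℓ : ∀ i, 0 < ℓ i)
    (A B : Set (Fin k)) (hAB : ∀ i, i ∈ A ∨ i ∈ B) (edA edB : ℤ → Fin k)
    (hA : ∀ n : ℤ, ∀ i ∈ A, ∃ m : ℤ, n - p < m ∧ m ≤ n ∧ edA m = i)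
    (hB : ∀ n : ℤ, ∀ i ∈ B, ∃ m : ℤ, n - p < m ∧ m ≤ n ∧ edB m = i) :
    CopWins ℓ s := by
  obtain ⟨TA, hTA, fA, hfA, hfA0, hA'⟩ := expansion hℓ p hp hs A edA hA
  obtain ⟨TB, hTB, fB, hfB, hfB0, hB'⟩ := expansion hℓ p hp hs B edB hB
  have hp' : (1 : ℝ) ≤ p := by exact_mod_cast hp
  have hs0 : 0 < s := by linarith
  refine ⟨TA + TB, by linarith, fun t => if t ≤ TB then fB (TB - t) else fA (t - TB), ?_, ?_⟩
  · -- it is a strategy
    have hmem : ∀ t ∈ Icc 0 (TA + TB),
        (if t ≤ TB then fB (TB - t) else fA (t - TB)) ∈ Star ℓ := by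
      intro t ht
      split_ifs with h
      · exact hfB.mem _ ⟨by linarith, by linarith [ht.1]⟩
      · exact hfA.mem _ ⟨by linarith, by linarith [ht.2]⟩
    have hlip : ∀ t ∈ Icc 0 (TA + TB), ∀ t' ∈ Icc 0 (TA + TB), t ≤ t' →
        starDist (if t ≤ TB then fB (TB - t) else fA (t - TB))
          (if t' ≤ TB then fB (TB - t') else fA (t' - TB)) ≤ s * |t - t'| := by
      intro t ht t' ht' htt'
      by_cases h' : t' ≤ TB
      · rw [if_pos (htt'.trans h'), if_pos h']
        refine (hfB.lip _ ⟨by linarith, by linarith [ht.1]⟩ _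
          ⟨by linarith, by linarith [ht'.1]⟩).trans ?_
        rw [show TB - t - (TB - t') = -(t - t') by ring, abs_neg]
      · rw [if_neg h']
        by_cases h : t ≤ TB
        · rw [if_pos h]
          refine (starDist_triangle _ 0 _).trans ?_
          have h1 := hfB.lip (TB - t) ⟨by linarith, by linarith [ht.1]⟩ 0 ⟨le_rfl, hTB.le⟩
          have h2 := hfA.lip 0 ⟨le_rfl, hTA.le⟩ (t' - TB) ⟨by linarith, by linarith [ht'.2]⟩
          rw [hfB0, sub_zero, abs_of_nonneg (by linarith)] at h1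
          rw [hfA0, zero_sub, abs_neg, abs_of_nonneg (by linarith)] at h2
          rw [abs_sub_comm, abs_of_nonneg (by linarith)]
          linarith
        · rw [if_neg h]
          refine (hfA.lip _ ⟨by linarith, by linarith [ht.2]⟩ _
            ⟨by linarith, by linarith [ht'.2]⟩).trans ?_
          rw [show t - TB - (t' - TB) = t - t' by ring]
    refine ⟨hmem, fun t ht t' ht' => ?_⟩
    rcases le_total t t' with h | h
    · exact hlip t ht t' ht' h
    · rw [starDist_comm, abs_sub_comm]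
      exact hlip t' ht' t ht h
  · -- it wins
    intro g hg
    by_contra hcon
    push Not at hcon
    have hgA : IsStrategy ℓ 1 TA (fun t => g (t + TB)) := by
      refine ⟨fun t ht => hg.mem _ ⟨by linarith [ht.1], by linarith [ht.2]⟩,
        fun t ht t' ht' => ?_⟩
      refine (hg.lip _ ⟨by linarith [ht.1], by linarith [ht.2]⟩ _
        ⟨by linarith [ht'.1], by linarith [ht'.2]⟩).trans ?_
      rw [show t + TB - (t' + TB) = t - t' by ring]
    have hgB : IsStrategy ℓ 1 TB (fun t => g (TB - t)) := by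
      refine ⟨fun t ht => hg.mem _ ⟨by linarith [ht.2], by linarith [ht.1]⟩,
        fun t ht t' ht' => ?_⟩
      refine (hg.lip _ ⟨by linarith [ht.2], by linarith [ht.1]⟩ _
        ⟨by linarith [ht'.2], by linarith [ht'.1]⟩).trans ?_
      rw [show TB - t - (TB - t') = -(t - t') by ring, abs_neg]
    have hmid : g TB ≠ 0 := by
      have := hcon TB ⟨hTB.le, by linarith⟩
      rw [if_pos le_rfl, sub_self, hfB0] at this
      exact this.symm
    have hA0 := hA' _ hgA (fun t ht heq => by
      rcases ht.1.eq_or_lt with h | h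
      · rw [← h, hfA0, zero_add] at heq
        exact hmid heq.symm
      · have := hcon (t + TB) ⟨by linarith, by linarith [ht.2]⟩
        rw [if_neg (by linarith), add_sub_cancel_right] at this
        exact this heq)
    have hB0 := hB' _ hgB (fun t ht heq => by
      have := hcon (TB - t) ⟨by linarith [ht.2], by linarith [ht.1]⟩
      rw [if_pos (by linarith [ht.1]), sub_sub_cancel] at this
      exact this heq)
    apply hmid
    ext i
    rcases hAB i with h | h
    · have := hA0 i h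
      rwa [zero_add] at this
    · have := hB0 i h
      rwa [sub_zero] at this

lemma exists_residue (p : ℕ) (hp : 1 ≤ p) (n : ℤ) (j : ℕ) (hj : j < p) :
    ∃ m : ℤ, n - p < m ∧ m ≤ n ∧ (m % (p : ℤ)).toNat = j := by
  have hp0 : (0 : ℤ) < p := by exact_mod_cast hp
  refine ⟨n - (n - j) % (p : ℤ), ?_, ?_, ?_⟩
  · have := Int.emod_lt_of_pos (n - j) hp0
    linarith
  · have := Int.emod_nonneg (n - j) hp0.ne'
    linarith
  · have h1 : n - (n - j) % (p : ℤ) = j + p * ((n - j) / p) := by
      have := Int.emod_add_mul_ediv (n - j) p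
      linarith
    rw [h1, Int.add_mul_emod_self_left, Int.emod_eq_of_lt (by positivity) (by exact_mod_cast hj)]
    simp

theorem copWins_of_lt (hk : 1 ≤ k) (hℓ : ∀ i, 0 < ℓ i) {s : ℝ}
    (hs : 2 * (((k + 1) / 2 : ℕ) : ℝ) - 1 < s) : CopWins ℓ s := by
  set p : ℕ := (k + 1) / 2 with hp
  have hp1 : 1 ≤ p := by omega
  have hpk : p ≤ k := by omega
  have hlt : ∀ m : ℤ, (m % (p : ℤ)).toNat < p := by
    intro m
    have h0 : (0 : ℤ) < p := by exact_mod_cast hp1
    have := Int.emod_lt_of_pos m h0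
    have := Int.emod_nonneg m h0.ne'
    omega
  refine combine p hp1 hs hℓ {i | i.val < p} {i | p ≤ i.val} (fun i => lt_or_ge i.val p)
    (fun m => ⟨(m % (p : ℤ)).toNat, (hlt m).trans_le hpk⟩)
    (fun m => ⟨min (p + (m % (p : ℤ)).toNat) (k - 1), by omega⟩) ?_ ?_
  · intro n i hi
    obtain ⟨m, h1, h2, h3⟩ := exists_residue p hp1 n i.val hi
    exact ⟨m, h1, h2, Fin.ext h3⟩
  · intro n i hi
    have hi' : p ≤ i.val := hi
    obtain ⟨m, h1, h2, h3⟩ := exists_residue p hp1 n (i.val - p) (by omega)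
    refine ⟨m, h1, h2, Fin.ext ?_⟩
    simp only [h3]
    omega

end Pool.Agent.Lib.MP_29e9a5_co
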